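import Pool.Agent.Q55.LM.Stm

/-! Project LM (helper55), lemma job COMB. -/

namespace Pool.Agent.Q229.LM.Comb

open Finset Pool.Agent.Q55.LM

/-- blocks of length `m` -/
theorem sum_blocks (f : ℕ → ℕ) (m : ℕ) : ∀ Y : ℕ,
    ∑ x ∈ range (m * Y), f x = ∑ a ∈ range Y, ∑ r ∈ range m, f (m * a + r) := by
  intro Y
  induction Y with
  | zero => simp
  | succ Y ih =>
    rw [Nat.mul_succ, Finset.sum_range_add, ih, Finset.sum_range_succ]

theorem s1 : ∀ k t : ℕ, 2 * ∑ s ∈ range k, (t - s) ≤ t * (t + 1) := by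
  intro k
  induction k with
  | zero => intro t; simp
  | succ k ih =>
    intro t
    rw [Finset.sum_range_succ']
    rcases t with _ | t
    · simp
    · have h := ih t
      have e : ∑ s ∈ range k, (t + 1 - (s + 1)) = ∑ s ∈ range k, (t - s) :=
        Finset.sum_congr rfl fun s _ => by omega
      rw [e]
      simp only [Nat.sub_zero]
      nlinarith

theorem s2 : ∀ k t : ℕ, 3 * ∑ r ∈ range k, (t - r) * (t - r + 1) ≤ t * (t + 1) * (t + 2) := by
  intro k
  induction k with
  | zero => intro t; simp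
  | succ k ih =>
    intro t
    rw [Finset.sum_range_succ']
    rcases t with _ | t
    · simp
    · have h := ih t
      have e : ∑ r ∈ range k, (t + 1 - (r + 1)) * (t + 1 - (r + 1) + 1)
          = ∑ r ∈ range k, (t - r) * (t - r + 1) :=
        Finset.sum_congr rfl fun s _ => by
          have : t + 1 - (s + 1) = t - s := by omega
          rw [this]
      rw [e]
      simp only [Nat.sub_zero]
      nlinarith

theorem s3 (k l t : ℕ) :
    6 * ∑ r ∈ range k, ∑ s ∈ range l, (t - (r + s)) ≤ t * (t + 1) * (t + 2) := by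
  have h : ∀ r ∈ range k, 2 * ∑ s ∈ range l, (t - (r + s)) ≤ (t - r) * (t - r + 1) := by
    intro r _
    have e : ∑ s ∈ range l, (t - (r + s)) = ∑ s ∈ range l, (t - r - s) :=
      Finset.sum_congr rfl fun s _ => by omega
    rw [e]
    exact s1 l (t - r)
  have h1 := Finset.sum_le_sum h
  rw [← Finset.mul_sum] at h1
  have h2 := s2 k t
  omega

theorem s4 (m : ℕ) :
    6 * ∑ r ∈ range m, ∑ s ∈ range m, (r + s + 1 - m) ≤ m ^ 3 := by
  rcases m with _ | m
  · simp
  have e : ∑ r ∈ range (m + 1), ∑ s ∈ range (m + 1), (r + s + 1 - (m + 1))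
      = ∑ r ∈ range (m + 1), ∑ s ∈ range (m + 1), (m - (r + s)) := by
    rw [← Finset.sum_range_reflect]
    refine Finset.sum_congr rfl fun r hr => ?_
    rw [← Finset.sum_range_reflect]
    refine Finset.sum_congr rfl fun s hs => ?_
    rw [Finset.mem_range] at hr hs
    omega
  rw [e]
  refine (s3 _ _ _).trans ?_
  nlinarith [Nat.zero_le m]

theorem s5 (m : ℕ) : 6 * ∑ r ∈ range m, ∑ s ∈ range m, min r s ≤ 2 * m ^ 3 := by
  induction m with
  | zero => simp
  | succ m ih =>
    have h1 : ∑ r ∈ range (m + 1), ∑ s ∈ range (m + 1), min r s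
        = ∑ r ∈ range m, ∑ s ∈ range m, min r s + 2 * ∑ s ∈ range m, s + m := by
      rw [Finset.sum_range_succ]
      have e1 : ∀ r ∈ range m, ∑ s ∈ range (m + 1), min r s = ∑ s ∈ range m, min r s + r := by
        intro r hr
        rw [Finset.mem_range] at hr
        rw [Finset.sum_range_succ, min_eq_left hr.le]
      have e2 : ∑ s ∈ range (m + 1), min m s = ∑ s ∈ range m, s + m := by
        rw [Finset.sum_range_succ, min_self]
        congr 1
        refine Finset.sum_congr rfl fun s hs => ?_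
        rw [Finset.mem_range] at hs
        exact min_eq_right hs.le
      rw [Finset.sum_congr rfl e1, e2, Finset.sum_add_distrib]
      ring
    have h2 := Finset.sum_range_id_mul_two m
    rw [h1]
    rcases m with _ | m
    · simp
    · simp only [Nat.add_sub_cancel] at h2
      nlinarith

theorem s6 (m : ℕ) (c : ℕ → ℕ → ℕ) (hc : ∀ r < m, ∀ s < m, c r s ≤ min r (m - 1 - s) + 2) :
    6 * ∑ r ∈ range m, ∑ s ∈ range m, c r s ≤ 2 * m ^ 3 + 12 * m ^ 2 := by
  have h1 : ∑ r ∈ range m, ∑ s ∈ range m, c r s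
      ≤ ∑ r ∈ range m, ∑ s ∈ range m, (min r (m - 1 - s) + 2) :=
    Finset.sum_le_sum fun r hr => Finset.sum_le_sum fun s hs =>
      hc r (Finset.mem_range.1 hr) s (Finset.mem_range.1 hs)
  have h2 : ∑ r ∈ range m, ∑ s ∈ range m, (min r (m - 1 - s) + 2)
      = ∑ r ∈ range m, ∑ s ∈ range m, min r s + 2 * m ^ 2 := by
    simp only [Finset.sum_add_distrib, Finset.sum_const, Finset.card_range, smul_eq_mul]
    congr 1
    · refine Finset.sum_congr rfl fun r _ => ?_
      exact Finset.sum_range_reflect (fun s => min r s) m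
    · ring
  have h3 := s5 m
  rw [h2] at h1
  nlinarith

/-- the doubled cost of a point of the cone -/
def G (n : ℕ) (h : ℕ → ℕ → ℕ) (j q : ℕ) : ℕ :=
  if q = 1 then (if 2 ≤ n * j then h j 0 + h j (n * j) else h 0 0 + h 2 2) else 2 * h j q

theorem pieces (n X : ℕ) (h : ℕ → ℕ → ℕ) (hn : 1 ≤ n) (j q a : ℕ) (hq : q ≤ n * j)
    (hj : j ≤ X + 1) :
    ∃ L : List (ℕ × ℕ), L.length = a ∧ (∀ P ∈ L, Valid n P ∧ P.1 ≤ X + 2) ∧
      (L.map Prod.fst).sum ≤ a * j ∧
      a * q ≤ (L.map Prod.snd).sum + n * (a * j - (L.map Prod.fst).sum) ∧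
      2 * (L.map fun P => h P.1 P.2).sum ≤ (a + 1) * G n h j q := by
  by_cases h1 : q = 1
  · subst h1
    by_cases h2 : 2 ≤ n * j
    · refine ⟨List.replicate (a - a / 2) (j, n * j) ++ List.replicate (a / 2) (j, 0), ?_, ?_, ?_,
        ?_, ?_⟩
      · simp; omega
      · intro P hP
        rcases List.mem_append.1 hP with hP | hP
        · rw [List.eq_of_mem_replicate hP]
          exact ⟨Or.inr ⟨h2, le_rfl⟩, by simpa using by omega⟩
        · rw [List.eq_of_mem_replicate hP]
          exact ⟨Or.inl rfl, by simpa using by omega⟩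
      · simp only [List.map_append, List.map_replicate, List.sum_append, List.sum_replicate,
          smul_eq_mul, ← Nat.add_mul]
        exact Nat.mul_le_mul_right _ (by omega)
      · simp only [List.map_append, List.map_replicate, List.sum_append, List.sum_replicate,
          smul_eq_mul, ← Nat.add_mul, mul_one, mul_zero, add_zero]
        have e : a ≤ (a - a / 2) * 2 := by omega
        exact (e.trans (Nat.mul_le_mul_left _ h2)).trans (Nat.le_add_right _ _)
      · simp only [List.map_append, List.map_replicate, List.sum_append, List.sum_replicate,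
          smul_eq_mul, G, if_true, if_pos h2]
        have e1 : 2 * (a - a / 2) ≤ a + 1 := by omega
        have e2 : 2 * (a / 2) ≤ a + 1 := by omega
        have e3 := Nat.mul_le_mul_right (h j (n * j)) e1
        have e4 := Nat.mul_le_mul_right (h j 0) e2
        nlinarith
    · have hj1 : j = 1 := by
        rcases j with _ | _ | j
        · simp at hq
        · rfl
        · exfalso
          apply h2
          nlinarith
      subst hj1
      have hn1 : n = 1 := by omega
      subst hn1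
      refine ⟨List.replicate (a - a / 2) (0, 0) ++ List.replicate (a / 2) (2, 2), ?_, ?_, ?_,
        ?_, ?_⟩
      · simp; omega
      · intro P hP
        rcases List.mem_append.1 hP with hP | hP
        · rw [List.eq_of_mem_replicate hP]
          exact ⟨Or.inl rfl, by simp⟩
        · rw [List.eq_of_mem_replicate hP]
          exact ⟨Or.inr ⟨le_rfl, by norm_num⟩, by simp⟩
      · simp only [List.map_append, List.map_replicate, List.sum_append, List.sum_replicate,
          smul_eq_mul]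
        omega
      · simp only [List.map_append, List.map_replicate, List.sum_append, List.sum_replicate,
          smul_eq_mul]
        omega
      · simp only [List.map_append, List.map_replicate, List.sum_append, List.sum_replicate,
          smul_eq_mul, G, if_true, if_neg h2]
        have e1 : 2 * (a - a / 2) ≤ a + 1 := by omega
        have e2 : 2 * (a / 2) ≤ a + 1 := by omega
        have e3 := Nat.mul_le_mul_right (h 0 0) e1
        have e4 := Nat.mul_le_mul_right (h 2 2) e2
        nlinarith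
  · refine ⟨List.replicate a (j, q), ?_, ?_, ?_, ?_, ?_⟩
    · simp
    · intro P hP
      rw [List.eq_of_mem_replicate hP]
      refine ⟨?_, by simpa using by omega⟩
      rcases q with _ | _ | q
      · exact Or.inl rfl
      · exact absurd rfl h1
      · exact Or.inr ⟨by simp, hq⟩
    · simp
    · simp
    · simp only [List.map_replicate, List.sum_replicate, smul_eq_mul, G, if_neg h1]
      nlinarith [Nat.zero_le (h j q)]

/-- the hypothesis of `S_Comb` on `H` -/
def HH (n X m : ℕ) (h H : ℕ → ℕ → ℕ) : Prop :=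
  ∀ L : List (ℕ × ℕ), L.length = m → (∀ P ∈ L, Valid n P ∧ P.1 ≤ X + 2) → ∀ j q : ℕ,
    (L.map Prod.fst).sum ≤ j → q ≤ (L.map Prod.snd).sum + n * (j - (L.map Prod.fst).sum) →
    H j q ≤ (L.map fun P => h P.1 P.2).sum

theorem three (n X m : ℕ) (h H : ℕ → ℕ → ℕ) (hn : 1 ≤ n) (hH : HH n X m h H)
    (c1 c2 c3 j1 q1 j2 q2 j3 q3 : ℕ) (hc : c1 + c2 + c3 = m)
    (h1 : q1 ≤ n * j1 ∧ j1 ≤ X + 1) (h2 : q2 ≤ n * j2 ∧ j2 ≤ X + 1)
    (h3 : q3 ≤ n * j3 ∧ j3 ≤ X + 1) (j q : ℕ) (ej : j = c1 * j1 + c2 * j2 + c3 * j3)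
    (eq' : q = c1 * q1 + c2 * q2 + c3 * q3) :
    2 * H j q ≤ (c1 + 1) * G n h j1 q1 + (c2 + 1) * G n h j2 q2 + (c3 + 1) * G n h j3 q3 := by
  obtain ⟨L1, a1, b1, d1, e1, f1⟩ := pieces n X h hn j1 q1 c1 h1.1 h1.2
  obtain ⟨L2, a2, b2, d2, e2, f2⟩ := pieces n X h hn j2 q2 c2 h2.1 h2.2
  obtain ⟨L3, a3, b3, d3, e3, f3⟩ := pieces n X h hn j3 q3 c3 h3.1 h3.2
  have key := hH (L1 ++ L2 ++ L3) (by simp only [List.length_append, a1, a2, a3]; omega) (by
    intro P hP
    rcases List.mem_append.1 hP with hP | hP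
    · rcases List.mem_append.1 hP with hP | hP
      · exact b1 P hP
      · exact b2 P hP
    · exact b3 P hP) j q (by
      simp only [List.map_append, List.sum_append]
      omega) (by
      simp only [List.map_append, List.sum_append]
      have e : n * (c1 * j1 - (L1.map Prod.fst).sum) + n * (c2 * j2 - (L2.map Prod.fst).sum)
          + n * (c3 * j3 - (L3.map Prod.fst).sum)
          = n * (j - ((L1.map Prod.fst).sum + (L2.map Prod.fst).sum + (L3.map Prod.fst).sum)) := by
        rw [← Nat.mul_add, ← Nat.mul_add]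
        congr 1
        omega
      rw [← e]
      omega)
  simp only [List.map_append, List.sum_append] at key
  omega

/-- the doubled cost in the coordinates of a subcone -/
def gg (n : ℕ) (h : ℕ → ℕ → ℕ) (i a b : ℕ) : ℕ := G n h (a + b) (i * (a + b) + b)

theorem point (n X m : ℕ) (h H : ℕ → ℕ → ℕ) (hn : 1 ≤ n) (hH : HH n X m h H) (i a b r s : ℕ)
    (hi : i < n) (hab : a + b < X) (hr : r < m) (hs : s < m) (j q : ℕ)
    (ej : j = (m * a + r) + (m * b + s)) (eq' : q = i * j + (m * b + s)) :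
    2 * H j q ≤ (m + 1 - (r + s)) * gg n h i a b
      + (if r + s ≤ m then r + 1 else m - s + 1) * gg n h i (a + 1) b
      + (if r + s ≤ m then s + 1 else m - r + 1) * gg n h i a (b + 1)
      + (r + s + 1 - m) * gg n h i (a + 1) (b + 1) := by
  have hc : ∀ a' b' : ℕ, a' + b' ≤ X + 1 →
      i * (a' + b') + b' ≤ n * (a' + b') ∧ a' + b' ≤ X + 1 := by
    intro a' b' h'
    refine ⟨?_, h'⟩
    have : (i + 1) * (a' + b') ≤ n * (a' + b') := Nat.mul_le_mul_right _ hi
    nlinarith
  by_cases hrs : r + s ≤ m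
  · rw [if_pos hrs, if_pos hrs]
    obtain ⟨t, ht⟩ := Nat.exists_eq_add_of_le hrs
    have k := three n X m h H hn hH t r s (a + b) (i * (a + b) + b) (a + 1 + b)
      (i * (a + 1 + b) + b) (a + (b + 1)) (i * (a + (b + 1)) + (b + 1)) (by omega)
      (hc a b (by omega)) (hc (a + 1) b (by omega)) (hc a (b + 1) (by omega)) j q
      (by rw [ej, ht]; ring) (by rw [eq', ej, ht]; ring)
    have e : m + 1 - (r + s) = t + 1 := by omega
    rw [e]
    exact k.trans (Nat.le_add_right _ _)
  · rw [if_neg hrs, if_neg hrs]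
    obtain ⟨t, ht⟩ := Nat.exists_eq_add_of_le hr.le
    obtain ⟨u, hu⟩ := Nat.exists_eq_add_of_le hs.le
    have k := three n X m h H hn hH (r + s - m) t u (a + 1 + (b + 1))
      (i * (a + 1 + (b + 1)) + (b + 1)) (a + (b + 1)) (i * (a + (b + 1)) + (b + 1)) (a + 1 + b)
      (i * (a + 1 + b) + b) (by omega)
      (hc (a + 1) (b + 1) (by omega)) (hc a (b + 1) (by omega)) (hc (a + 1) b (by omega)) j q
      (by
        obtain ⟨v, hv⟩ := Nat.exists_eq_add_of_le (Nat.le_of_lt (not_le.1 hrs))
        have ev : r + s - m = v := by omega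
        rw [ev, ej]
        have e1 : r = v + u := by omega
        have e2 : m = v + t + u := by omega
        have e3 : s = v + t := by omega
        rw [e1, e2, e3]
        ring) (by
        obtain ⟨v, hv⟩ := Nat.exists_eq_add_of_le (Nat.le_of_lt (not_le.1 hrs))
        have ev : r + s - m = v := by omega
        rw [ev, eq', ej]
        have e1 : r = v + u := by omega
        have e2 : m = v + t + u := by omega
        have e3 : s = v + t := by omega
        rw [e1, e2, e3]
        ring)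
    have e1 : m - r = t := by omega
    have e2 : m - s = u := by omega
    have e3 : r + s + 1 - m = r + s - m + 1 := by omega
    rw [e1, e2, e3]
    unfold gg
    omega

theorem block (n X m : ℕ) (h H : ℕ → ℕ → ℕ) (hn : 1 ≤ n) (hH : HH n X m h H) (i a b : ℕ)
    (hi : i < n) (hab : a + b < X) (hm : 1 ≤ m) :
    12 * ∑ r ∈ range m, ∑ s ∈ range m,
        H ((m * a + r) + (m * b + s)) (i * ((m * a + r) + (m * b + s)) + (m * b + s)) ≤
      (m ^ 3 + 23 * m ^ 2) * (gg n h i a b + 2 * gg n h i (a + 1) b + 2 * gg n h i a (b + 1)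
        + gg n h i (a + 1) (b + 1)) := by
  have h1 : ∑ r ∈ range m, ∑ s ∈ range m,
      2 * H ((m * a + r) + (m * b + s)) (i * ((m * a + r) + (m * b + s)) + (m * b + s)) ≤
      ∑ r ∈ range m, ∑ s ∈ range m, ((m + 1 - (r + s)) * gg n h i a b
      + (if r + s ≤ m then r + 1 else m - s + 1) * gg n h i (a + 1) b
      + (if r + s ≤ m then s + 1 else m - r + 1) * gg n h i a (b + 1)
      + (r + s + 1 - m) * gg n h i (a + 1) (b + 1)) :=
    Finset.sum_le_sum fun r hr => Finset.sum_le_sum fun s hs =>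
      point n X m h H hn hH i a b r s hi hab (Finset.mem_range.1 hr) (Finset.mem_range.1 hs) _ _
        rfl rfl
  simp only [← Finset.mul_sum, Finset.sum_add_distrib, ← Finset.sum_mul] at h1
  have k1 := s3 m m (m + 1)
  have k4 := s4 m
  have k2 := s6 m (fun r s => if r + s ≤ m then r + 1 else m - s + 1) (by
    intro r hr s hs
    split_ifs with h'
    · rcases le_total r (m - 1 - s) with h2 | h2
      · rw [min_eq_left h2]; omega
      · rw [min_eq_right h2]; omega
    · rcases le_total r (m - 1 - s) with h2 | h2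
      · rw [min_eq_left h2]; omega
      · rw [min_eq_right h2]; omega)
  have k3 := s6 m (fun s r => if r + s ≤ m then s + 1 else m - r + 1) (by
    intro s hs r hr
    split_ifs with h'
    · rcases le_total s (m - 1 - r) with h2 | h2
      · rw [min_eq_left h2]; omega
      · rw [min_eq_right h2]; omega
    · rcases le_total s (m - 1 - r) with h2 | h2
      · rw [min_eq_left h2]; omega
      · rw [min_eq_right h2]; omega)
  rw [Finset.sum_comm] at k3
  generalize ∑ r ∈ range m, ∑ s ∈ range m, (m + 1 - (r + s)) = C1 at *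
  generalize ∑ r ∈ range m, ∑ s ∈ range m, (if r + s ≤ m then r + 1 else m - s + 1) = C2 at *
  generalize ∑ r ∈ range m, ∑ s ∈ range m, (if r + s ≤ m then s + 1 else m - r + 1) = C3 at *
  generalize ∑ r ∈ range m, ∑ s ∈ range m, (r + s + 1 - m) = C4 at *
  generalize gg n h i a b = g1 at *
  generalize gg n h i (a + 1) b = g2 at *
  generalize gg n h i a (b + 1) = g3 at *
  generalize gg n h i (a + 1) (b + 1) = g4 at *
  have m1 : 1 ≤ m ^ 2 := Nat.one_le_pow _ _ hm
  have m2 : m ≤ m ^ 2 := Nat.le_self_pow (by norm_num) m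
  have l1 : 6 * C1 ≤ m ^ 3 + 23 * m ^ 2 := by nlinarith
  have l2 : 6 * C2 ≤ 2 * (m ^ 3 + 23 * m ^ 2) := by nlinarith
  have l3 : 6 * C3 ≤ 2 * (m ^ 3 + 23 * m ^ 2) := by nlinarith
  have l4 : 6 * C4 ≤ m ^ 3 + 23 * m ^ 2 := by nlinarith
  have p1 := Nat.mul_le_mul_right g1 l1
  have p2 := Nat.mul_le_mul_right g2 l2
  have p3 := Nat.mul_le_mul_right g3 l3
  have p4 := Nat.mul_le_mul_right g4 l4
  nlinarith

theorem icc (φ : ℕ → ℕ) (M j : ℕ) :
    ∑ q ∈ Icc 1 (M + j), φ q ≤ ∑ q ∈ Icc 1 M, φ q + ∑ β ∈ range (j + 1), φ (M + β) := by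
  induction j with
  | zero => simp
  | succ j ih =>
    rw [← Nat.add_assoc, Finset.sum_Icc_succ_top (by omega), Finset.sum_range_succ]
    have : M + (j + 1) = M + j + 1 := by ring
    rw [this]
    omega

theorem rows (φ : ℕ → ℕ) (j : ℕ) : ∀ n : ℕ,
    ∑ q ∈ Icc 1 (n * j), φ q ≤ ∑ i ∈ range n, ∑ β ∈ range (j + 1), φ (i * j + β) := by
  intro n
  induction n with
  | zero => simp
  | succ n ih =>
    rw [Nat.succ_mul, Finset.sum_range_succ]
    exact (icc φ (n * j) j).trans (Nat.add_le_add_right ih _)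

theorem part1 (n X m : ℕ) (h H : ℕ → ℕ → ℕ) (hn : 1 ≤ n) (hH : HH n X m h H) (hm : 1 ≤ m) :
    12 * ∑ j ∈ range (X * m), ∑ q ∈ Icc 1 (n * j), H j q ≤
      (m ^ 3 + 23 * m ^ 2) * ∑ i ∈ range n, ∑ c ∈ range X, ∑ b ∈ range (c + 1),
        (gg n h i (c - b) b + 2 * gg n h i (c - b + 1) b + 2 * gg n h i (c - b) (b + 1)
          + gg n h i (c - b + 1) (b + 1)) := by
  have h1 : ∑ j ∈ range (X * m), ∑ q ∈ Icc 1 (n * j), H j q ≤
      ∑ i ∈ range n, ∑ j ∈ range (X * m), ∑ β ∈ range (j + 1), H j (i * j + β) := by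
    rw [Finset.sum_comm]
    exact Finset.sum_le_sum fun j _ => rows (H j) j n
  refine (Nat.mul_le_mul_left 12 h1).trans ?_
  rw [Finset.mul_sum, Finset.mul_sum]
  refine Finset.sum_le_sum fun i hi => ?_
  rw [Finset.mem_range] at hi
  have h2 : ∑ j ∈ range (X * m), ∑ β ∈ range (j + 1), H j (i * j + β)
      = ∑ β ∈ range (X * m), ∑ α ∈ range (X * m - β), H (α + β) (i * (α + β) + β) := by
    rw [← Finset.sum_range_diag_flip]
    refine Finset.sum_congr rfl fun j _ => Finset.sum_congr rfl fun β hβ => ?_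
    rw [Finset.mem_range] at hβ
    have e : j - β + β = j := by omega
    rw [e]
  have h3 : ∑ β ∈ range (X * m), ∑ α ∈ range (X * m - β), H (α + β) (i * (α + β) + β)
      ≤ ∑ b ∈ range X, ∑ a ∈ range (X - b), ∑ r ∈ range m, ∑ s ∈ range m,
        H ((m * a + r) + (m * b + s)) (i * ((m * a + r) + (m * b + s)) + (m * b + s)) := by
    rw [Nat.mul_comm X m, sum_blocks]
    refine Finset.sum_le_sum fun b _ => ?_
    calc _ ≤ ∑ s ∈ range m, ∑ α ∈ range (m * (X - b)),
            H (α + (m * b + s)) (i * (α + (m * b + s)) + (m * b + s)) := by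
          refine Finset.sum_le_sum fun s _ => ?_
          refine Finset.sum_le_sum_of_subset ?_
          intro x hx
          rw [Finset.mem_range] at *
          rw [Nat.mul_sub]
          omega
      _ = ∑ s ∈ range m, ∑ a ∈ range (X - b), ∑ r ∈ range m,
            H ((m * a + r) + (m * b + s)) (i * ((m * a + r) + (m * b + s)) + (m * b + s)) := by
          refine Finset.sum_congr rfl fun s _ => ?_
          rw [sum_blocks]
      _ = _ := by
          rw [Finset.sum_comm]
          refine Finset.sum_congr rfl fun a _ => ?_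
          rw [Finset.sum_comm]
      _ ≤ _ := le_rfl
  have h4 : 12 * ∑ b ∈ range X, ∑ a ∈ range (X - b), ∑ r ∈ range m, ∑ s ∈ range m,
        H ((m * a + r) + (m * b + s)) (i * ((m * a + r) + (m * b + s)) + (m * b + s)) ≤
      (m ^ 3 + 23 * m ^ 2) * ∑ b ∈ range X, ∑ a ∈ range (X - b),
        (gg n h i a b + 2 * gg n h i (a + 1) b + 2 * gg n h i a (b + 1)
          + gg n h i (a + 1) (b + 1)) := by
    rw [Finset.mul_sum, Finset.mul_sum]
    refine Finset.sum_le_sum fun b hb => ?_
    rw [Finset.mul_sum, Finset.mul_sum]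
    refine Finset.sum_le_sum fun a ha => ?_
    rw [Finset.mem_range] at ha hb
    exact block n X m h H hn hH i a b hi (by omega) hm
  have h5 := Finset.sum_range_diag_flip X (fun b a => gg n h i a b + 2 * gg n h i (a + 1) b
    + 2 * gg n h i a (b + 1) + gg n h i (a + 1) (b + 1))
  rw [h5]
  exact (Nat.mul_le_mul_left 12 (h2.le.trans h3)).trans h4

/-- the sum over the inner points of the subcone `i` -/
def inn (n : ℕ) (h : ℕ → ℕ → ℕ) (i j : ℕ) : ℕ := ∑ b ∈ range (j - 1), G n h j (i * j + b + 1)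

theorem diag (n : ℕ) (h : ℕ → ℕ → ℕ) (i c : ℕ) :
    ∑ b ∈ range (c + 1), (gg n h i (c - b) b + 2 * gg n h i (c - b + 1) b
        + 2 * gg n h i (c - b) (b + 1) + gg n h i (c - b + 1) (b + 1)) =
      ∑ b ∈ range (c + 1), G n h c (i * c + b)
      + 2 * (G n h (c + 1) (i * (c + 1)) + inn n h i (c + 1))
      + 2 * (inn n h i (c + 1) + G n h (c + 1) ((i + 1) * (c + 1)))
      + inn n h i (c + 2) := by
  have e0 : ∀ b ∈ range (c + 1), gg n h i (c - b) b + 2 * gg n h i (c - b + 1) b
        + 2 * gg n h i (c - b) (b + 1) + gg n h i (c - b + 1) (b + 1) =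
      G n h c (i * c + b) + 2 * G n h (c + 1) (i * (c + 1) + b)
        + 2 * G n h (c + 1) (i * (c + 1) + b + 1) + G n h (c + 2) (i * (c + 2) + b + 1) := by
    intro b hb
    rw [Finset.mem_range] at hb
    unfold gg
    have a1 : c - b + b = c := by omega
    have a2 : c - b + 1 + b = c + 1 := by omega
    have a3 : c - b + (b + 1) = c + 1 := by omega
    have a4 : c - b + 1 + (b + 1) = c + 2 := by omega
    rw [a1, a2, a3, a4]
    rfl
  rw [Finset.sum_congr rfl e0]
  simp only [Finset.sum_add_distrib, ← Finset.mul_sum]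
  have e1 : ∑ b ∈ range (c + 1), G n h (c + 1) (i * (c + 1) + b)
      = G n h (c + 1) (i * (c + 1)) + inn n h i (c + 1) := by
    rw [Finset.sum_range_succ', Nat.add_comm]
    rfl
  have e2 : ∑ b ∈ range (c + 1), G n h (c + 1) (i * (c + 1) + b + 1)
      = inn n h i (c + 1) + G n h (c + 1) ((i + 1) * (c + 1)) := by
    rw [Finset.sum_range_succ]
    have : i * (c + 1) + c + 1 = (i + 1) * (c + 1) := by ring
    rw [this]
    rfl
  rw [e1, e2]
  rfl

theorem first (n : ℕ) (h : ℕ → ℕ → ℕ) (i c : ℕ) :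
    ∑ b ∈ range (c + 1 + 1), G n h (c + 1) (i * (c + 1) + b)
      = G n h (c + 1) (i * (c + 1)) + inn n h i (c + 1) + G n h (c + 1) ((i + 1) * (c + 1)) := by
  rw [Finset.sum_range_succ]
  have : i * (c + 1) + (c + 1) = (i + 1) * (c + 1) := by ring
  rw [this, Finset.sum_range_succ', Nat.add_comm (∑ b ∈ range c, _)]
  rfl

theorem cone (n : ℕ) (h : ℕ → ℕ → ℕ) (i X : ℕ) :
    ∑ c ∈ range X, ∑ b ∈ range (c + 1), (gg n h i (c - b) b + 2 * gg n h i (c - b + 1) b
        + 2 * gg n h i (c - b) (b + 1) + gg n h i (c - b + 1) (b + 1)) ≤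
      G n h 0 0 + ∑ c ∈ range (X + 1), (3 * G n h (c + 1) (i * (c + 1))
        + 3 * G n h (c + 1) ((i + 1) * (c + 1)) + 6 * inn n h i (c + 1)) := by
  simp only [diag]
  simp only [Finset.sum_add_distrib, ← Finset.mul_sum]
  have t1 : ∑ c ∈ range X, ∑ b ∈ range (c + 1), G n h c (i * c + b) ≤
      G n h 0 0 + ∑ c ∈ range X, (G n h (c + 1) (i * (c + 1)) + inn n h i (c + 1)
        + G n h (c + 1) ((i + 1) * (c + 1))) := by
    have a1 : ∑ c ∈ range X, ∑ b ∈ range (c + 1), G n h c (i * c + b) ≤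
        ∑ c ∈ range (X + 1), ∑ b ∈ range (c + 1), G n h c (i * c + b) :=
      Finset.sum_le_sum_of_subset (Finset.range_mono (Nat.le_succ X))
    rw [Finset.sum_range_succ'] at a1
    simp only [first] at a1
    simpa [Nat.add_comm] using a1
  simp only [Finset.sum_add_distrib] at t1
  have t2 : ∑ c ∈ range X, inn n h i (c + 2) ≤ ∑ c ∈ range (X + 1), inn n h i (c + 1) := by
    rw [Finset.sum_range_succ']
    exact Nat.le_add_right _ _
  have t3 : ∀ f : ℕ → ℕ, ∑ c ∈ range X, f c ≤ ∑ c ∈ range (X + 1), f c := fun f =>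
    Finset.sum_le_sum_of_subset (Finset.range_mono (Nat.le_succ X))
  have u1 := t3 fun c => G n h (c + 1) (i * (c + 1))
  have u2 := t3 fun c => G n h (c + 1) ((i + 1) * (c + 1))
  have u3 := t3 fun c => inn n h i (c + 1)
  omega

theorem sub (n : ℕ) (h : ℕ → ℕ → ℕ) (c : ℕ) : ∀ k : ℕ,
    ∑ i ∈ range k, (3 * G n h (c + 1) (i * (c + 1))
        + 3 * G n h (c + 1) ((i + 1) * (c + 1)) + 6 * inn n h i (c + 1)) + 3 * G n h (c + 1) 0
      = 6 * ∑ q ∈ range (k * (c + 1)), G n h (c + 1) q + 3 * G n h (c + 1) (k * (c + 1)) := by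
  intro k
  induction k with
  | zero => simp
  | succ k ih =>
    rw [Finset.sum_range_succ]
    have e : (k + 1) * (c + 1) = k * (c + 1) + (c + 1) := by ring
    have e1 : ∑ q ∈ range ((k + 1) * (c + 1)), G n h (c + 1) q
        = ∑ q ∈ range (k * (c + 1)), G n h (c + 1) q
          + (G n h (c + 1) (k * (c + 1)) + inn n h k (c + 1)) := by
      rw [e, Finset.sum_range_add]
      congr 1
      rw [Finset.sum_range_succ', Nat.add_comm]
      rfl
    rw [e1]
    omega

/-- the contribution of the points with first coordinate `j` -/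
def TT (n : ℕ) (h : ℕ → ℕ → ℕ) (j : ℕ) : ℕ := h j 0 + ∑ q ∈ Icc 2 (n * j), h j q

theorem row (n : ℕ) (h : ℕ → ℕ → ℕ) (c : ℕ) (hn : 1 ≤ n) (h22 : n = 1 → h 2 2 ≤ h 0 0) :
    ∑ i ∈ range n, (3 * G n h (c + 1) (i * (c + 1))
        + 3 * G n h (c + 1) ((i + 1) * (c + 1)) + 6 * inn n h i (c + 1)) ≤
      12 * TT n h (c + 1) + (if c = 0 ∧ n = 1 then 6 * h 0 0 else 0) := by
  have h1 := sub n h c n
  by_cases h2 : 2 ≤ n * (c + 1)
  · obtain ⟨M, hM⟩ := Nat.exists_eq_add_of_le h2
    rw [Nat.add_comm 2 M] at hM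
    have e1 : ∑ q ∈ range (n * (c + 1)), G n h (c + 1) q
        = 2 * h (c + 1) 0 + (h (c + 1) 0 + h (c + 1) (M + 2))
          + 2 * ∑ q ∈ range M, h (c + 1) (q + 2) := by
      rw [hM, Finset.sum_range_succ', Finset.sum_range_succ']
      have a1 : ∑ k ∈ range M, G n h (c + 1) (k + 1 + 1) = 2 * ∑ q ∈ range M, h (c + 1) (q + 2) := by
        rw [Finset.mul_sum]
        refine Finset.sum_congr rfl fun k _ => ?_
        unfold G
        rw [if_neg (by omega)]
      have a2 : G n h (c + 1) (0 + 1) = h (c + 1) 0 + h (c + 1) (M + 2) := by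
        unfold G
        rw [if_pos (by omega), if_pos h2, hM]
      have a3 : G n h (c + 1) 0 = 2 * h (c + 1) 0 := by
        unfold G
        rw [if_neg (by omega)]
      rw [a1, a2, a3]
      ring
    have e2 : G n h (c + 1) (n * (c + 1)) = 2 * h (c + 1) (M + 2) := by
      unfold G
      rw [if_neg (by omega), hM]
    have e3 : G n h (c + 1) 0 = 2 * h (c + 1) 0 := by
      unfold G
      rw [if_neg (by omega)]
    have e4 : TT n h (c + 1) = h (c + 1) 0 + (∑ q ∈ range M, h (c + 1) (q + 2)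
        + h (c + 1) (M + 2)) := by
      unfold TT
      congr 1
      rw [hM, ← Finset.sum_range_succ (fun q => h (c + 1) (q + 2)) M]
      rw [← Finset.Ico_add_one_right_eq_Icc, Finset.sum_Ico_eq_sum_range]
      have : M + 2 + 1 - 2 = M + 1 := by omega
      rw [this]
      exact Finset.sum_congr rfl fun q _ => by rw [Nat.add_comm 2 q]
    rw [e1, e2, e3] at h1
    rw [e4]
    refine le_trans ?_ (Nat.le_add_right _ _)
    omega
  · have hn1 : n = 1 := by nlinarith
    have hc1 : c = 0 := by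
      subst hn1
      omega
    subst hn1
    subst hc1
    rw [if_pos ⟨rfl, rfl⟩]
    have a1 : G 1 h 1 0 = 2 * h 1 0 := by
      unfold G
      rw [if_neg (by omega)]
    have a2 : G 1 h 1 1 = h 0 0 + h 2 2 := by
      unfold G
      rw [if_pos rfl, if_neg (by omega)]
    have a3 : TT 1 h 1 = h 1 0 := by
      unfold TT
      simp
    simp only [Nat.zero_add, Finset.sum_range_one, Nat.mul_one, a1, a2, inn, Nat.sub_self, Finset.range_zero, Finset.sum_empty] at h1 ⊢
    rw [a3]
    have := h22 rfl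
    omega

theorem part2 (n : ℕ) (h : ℕ → ℕ → ℕ) (J X : ℕ) (hn : 1 ≤ n) (hn3 : n ≤ 3)
    (hz : ∀ j q, J ≤ j → h j q = 0) (h22 : n = 1 → h 2 2 ≤ h 0 0) :
    ∑ i ∈ range n, ∑ c ∈ range X, ∑ b ∈ range (c + 1),
        (gg n h i (c - b) b + 2 * gg n h i (c - b + 1) b + 2 * gg n h i (c - b) (b + 1)
          + gg n h i (c - b + 1) (b + 1)) ≤
      12 * (h 0 0 + ∑ j ∈ Icc 1 J, TT n h j) := by
  have h1 := Finset.sum_le_sum fun i (_ : i ∈ range n) => cone n h i X
  refine h1.trans ?_
  rw [Finset.sum_add_distrib, Finset.sum_const, Finset.card_range, smul_eq_mul, Finset.sum_comm]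
  have h2 := Finset.sum_le_sum fun c (_ : c ∈ range (X + 1)) => row n h c hn h22
  rw [Finset.sum_add_distrib, ← Finset.mul_sum] at h2
  have h3 : ∑ c ∈ range (X + 1), TT n h (c + 1) ≤ ∑ j ∈ Icc 1 J, TT n h j := by
    have e : ∑ c ∈ range (X + 1), TT n h (c + 1) = ∑ j ∈ Ico 1 (X + 2), TT n h j := by
      rw [Finset.sum_Ico_eq_sum_range]
      exact Finset.sum_congr (by congr 1) fun c _ => by rw [Nat.add_comm]
    rw [e]
    refine Finset.sum_le_sum_of_ne_zero ?_
    intro j hj hne
    rw [Finset.mem_Icc]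
    rw [Finset.mem_Ico] at hj
    refine ⟨hj.1, ?_⟩
    by_contra hJ
    apply hne
    unfold TT
    rw [hz j 0 (by omega), Finset.sum_eq_zero fun q _ => hz j q (by omega), Nat.add_zero]
  have h4 : ∑ c ∈ range (X + 1), (if c = 0 ∧ n = 1 then 6 * h 0 0 else 0)
      = if n = 1 then 6 * h 0 0 else 0 := by
    rw [Finset.sum_range_succ']
    simp
  have h5 : G n h 0 0 = 2 * h 0 0 := by
    unfold G
    rw [if_neg (by omega)]
  rw [h4] at h2
  rw [h5]
  have h6 : n * (2 * h 0 0) + (if n = 1 then 6 * h 0 0 else 0) ≤ 12 * h 0 0 := by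
    split_ifs with h'
    · subst h'
      omega
    · nlinarith [Nat.zero_le (h 0 0)]
  omega

/-- lemma job COMB of project LM -/
theorem comb : S_Comb := by
  intro n hn hn3 J X h hz h22
  refine ⟨23 * (h 0 0 + ∑ j ∈ Icc 1 J, TT n h j), fun m hm H hH => ?_⟩
  have h1 := part1 n X m h H hn hH hm
  have h2 := part2 n h J X hn hn3 hz h22
  have h3 := h1.trans (Nat.mul_le_mul_left _ h2)
  have e : ∑ j ∈ Icc 1 J, (h j 0 + ∑ q ∈ Icc 2 (n * j), h j q) = ∑ j ∈ Icc 1 J, TT n h j := rfl
  rw [e]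
  generalize h 0 0 + ∑ j ∈ Icc 1 J, TT n h j = T at *
  nlinarith

end Pool.Agent.Q229.LM.Comb
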