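import Pool.Agent.Q55.LM.Stm

/-! Project LM (helper55), lemma job COUNT. -/

namespace Pool.Agent.Q229.LM.Count

open Module Pool.Agent.Q55.LM

/-- number of the possible second exponents -/
def φ (u v j a : ℕ) : ℕ := if u * a ≤ j then (j - u * a) / v + 1 else 0

/-- the exponent with given first two entries and weight `j` -/
noncomputable def F (u v j : ℕ) (x : Σ _ : ℕ, ℕ) : Fin 3 →₀ ℕ :=
  Finsupp.equivFunOnFinite.symm ![x.1, x.2, j - (u * x.1 + v * x.2)]

theorem lt_φ {u v j a b : ℕ} (hv : 1 ≤ v) : b < φ u v j a ↔ u * a + v * b ≤ j := by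
  unfold φ
  split_ifs with h
  · rw [Nat.lt_succ_iff, Nat.le_div_iff_mul_le hv, Nat.mul_comm b v]
    omega
  · constructor
    · intro h'
      omega
    · intro h'
      exact absurd (le_trans (Nat.le_add_right _ _) h') h

theorem ncard_eq (u v : ℕ) (hu : 1 ≤ u) (hv : 1 ≤ v) (j M : ℕ) (hM : j < M) :
    Set.ncard {e : Fin 3 →₀ ℕ | Finsupp.weight (![u, v, 1] : Fin 3 → ℕ) e = j}
      = ∑ a ∈ Finset.range M, φ u v j a := by
  classical
  have h1 : {e : Fin 3 →₀ ℕ | Finsupp.weight (![u, v, 1] : Fin 3 → ℕ) e = j}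
      = (((Finset.range M).sigma fun a => Finset.range (φ u v j a)).image (F u v j) :
        Finset (Fin 3 →₀ ℕ)) := by
    ext e
    simp only [Set.mem_ofPred_eq, Finset.coe_image, Finset.coe_sigma, Set.mem_image,
      Finset.coe_range, Set.mem_sigma_iff, Set.mem_Iio]
    rw [Finsupp.weight_eq_sum, Fin.sum_univ_three]
    simp only [smul_eq_mul, Matrix.cons_val_zero, Matrix.cons_val_one, Matrix.cons_val_two,
      Matrix.head_cons, Matrix.tail_cons, mul_one]
    constructor
    · intro h
      have h2 : u * e 0 + v * e 1 ≤ j := by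
        rw [Nat.mul_comm u, Nat.mul_comm v]
        omega
      refine ⟨⟨e 0, e 1⟩, ⟨?_, (lt_φ hv).2 h2⟩, ?_⟩
      · have : e 0 ≤ u * e 0 := Nat.le_mul_of_pos_left _ hu
        dsimp only
        omega
      · ext i
        unfold F
        fin_cases i
        · rfl
        · rfl
        · change j - (u * e 0 + v * e 1) = e 2
          rw [Nat.mul_comm u, Nat.mul_comm v]
          omega
    · rintro ⟨⟨a, b⟩, ⟨_, hb⟩, rfl⟩
      have hb' : u * a + v * b ≤ j := (lt_φ hv).1 hb
      change a * u + b * v + (j - (u * a + v * b)) = j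
      rw [Nat.mul_comm a, Nat.mul_comm b]
      omega
  rw [h1, Set.ncard_coe_finset, Finset.card_image_of_injective, Finset.card_sigma]
  · exact Finset.sum_congr rfl fun a _ => Finset.card_range _
  · rintro ⟨a, b⟩ ⟨a', b'⟩ h
    have e0 := DFunLike.congr_fun h 0
    have e1 := DFunLike.congr_fun h 1
    change a = a' at e0
    change b = b' at e1
    rw [e0, e1]

theorem step (u v t : ℕ) (hu : 1 ≤ u) (hv : 1 ≤ v) (j : ℕ) :
    Set.ncard {e : Fin 3 →₀ ℕ | Finsupp.weight (![u, v, 1] : Fin 3 → ℕ) e = j} =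
      ∑ a ∈ Finset.range t, φ u v j a + (if u * t ≤ j then
        Set.ncard {e : Fin 3 →₀ ℕ | Finsupp.weight (![u, v, 1] : Fin 3 → ℕ) e = j - u * t}
        else 0) := by
  rw [ncard_eq u v hu hv j (t + (j + 1)) (by omega), Finset.sum_range_add]
  congr 1
  split_ifs with h
  · rw [ncard_eq u v hu hv (j - u * t) (j + 1) (by omega)]
    refine Finset.sum_congr rfl fun a _ => ?_
    unfold φ
    have e1 : u * (t + a) ≤ j ↔ u * a ≤ j - u * t := by
      rw [Nat.mul_add]
      omega
    have e2 : j - u * (t + a) = j - u * t - u * a := by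
      rw [Nat.mul_add]
      omega
    rw [e2]
    simp only [e1]
  · refine Finset.sum_eq_zero fun a _ => ?_
    unfold φ
    rw [if_neg]
    rw [Nat.mul_add]
    omega

/-- lemma job COUNT of project LM -/
theorem count : S_Count := by
  rintro n d w (⟨rfl, rfl, rfl⟩ | ⟨rfl, rfl, rfl⟩ | ⟨rfl, rfl, rfl⟩) j hj
  · rw [step 3 2 2 (by norm_num) (by norm_num) j]
    congr 1
    rw [Finset.sum_range_succ, Finset.sum_range_one]
    unfold φ
    split_ifs <;> omega
  · rw [step 2 1 2 (by norm_num) (by norm_num) j]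
    congr 1
    rw [Finset.sum_range_succ, Finset.sum_range_one]
    unfold φ
    split_ifs <;> omega
  · rw [step 1 1 3 (by norm_num) (by norm_num) j]
    congr 1
    rw [Finset.sum_range_succ, Finset.sum_range_succ, Finset.sum_range_one]
    unfold φ
    split_ifs <;> omega

end Pool.Agent.Q229.LM.Count
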