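import Pool.Agent.Q55.LM.Stm

/-! Project LM (helper55), lemma job ELL. -/

namespace Pool.Agent.Q229.LM.Ell

open Module Polynomial Pool.Agent.Q55.LM
open WeierstrassCurve.Affine (CoordinateRing)

variable (A B : ℂ)

/-- the order of the pole -/
noncomputable def dg (b : RR A B) : ℕ := (Algebra.norm ℂ[X] b).natDegree

/-- `p + q y` -/
noncomputable def Φ : ℂ[X] × ℂ[X] →ₗ[ℂ] RR A B :=
  LinearMap.coprod (Algebra.linearMap ℂ[X] (RR A B) |>.restrictScalars ℂ)
    ((LinearMap.mulRight ℂ (yy A B)).comp (Algebra.linearMap ℂ[X] (RR A B) |>.restrictScalars ℂ))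

theorem Φ_apply (p q : ℂ[X]) : Φ A B (p, q) =
    algebraMap ℂ[X] (RR A B) p + algebraMap ℂ[X] (RR A B) q * yy A B := rfl

theorem Φ_inj : Function.Injective (Φ A B) := by
  rw [injective_iff_map_eq_zero]
  rintro ⟨p, q⟩ h
  rw [Φ_apply] at h
  obtain ⟨h1, h2⟩ := form_zero h
  rw [h1, h2]
  rfl

theorem Φ_surj (b : RR A B) : ∃ p q : ℂ[X], Φ A B (p, q) = b := by
  obtain ⟨p, q, h⟩ := exists_form b
  exact ⟨p, q, h.symm⟩

theorem dg_le (p q : ℂ[X]) (i : ℕ) : dg A B (Φ A B (p, q)) ≤ i ↔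
    p ∈ degreeLT ℂ (i / 2 + 1) ∧ q ∈ degreeLT ℂ ((i - 1) / 2) := by
  unfold dg
  rw [Polynomial.natDegree_le_iff_degree_le]
  have h := CoordinateRing.degree_norm_smul_basis (W' := crv A B) p q
  have e : p • (1 : RR A B) + q • CoordinateRing.mk (crv A B) X = Φ A B (p, q) := by
    rw [Φ_apply, Algebra.smul_def, Algebra.smul_def, mul_one]
    rfl
  rw [e] at h
  rw [h, max_le_iff, mem_degreeLT, mem_degreeLT]
  refine and_congr ?_ ?_
  · by_cases hp : p = 0
    · subst hp
      simp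
    · rw [Polynomial.degree_eq_natDegree hp]
      rw [two_smul, ← Nat.cast_add, Nat.cast_le, Nat.cast_lt]
      omega
  · by_cases hq : q = 0
    · subst hq
      simp
    · rw [Polynomial.degree_eq_natDegree hq]
      rw [two_smul, ← Nat.cast_add]
      have : ((q.natDegree + q.natDegree : ℕ) : WithBot ℕ) + 3
        = ((q.natDegree + q.natDegree + 3 : ℕ) : WithBot ℕ) := by
        push_cast
        rfl
      rw [this, Nat.cast_le, Nat.cast_lt]
      omega

/-- the filtration -/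
noncomputable def fl (i : ℕ) : Submodule ℂ (RR A B) :=
  ((degreeLT ℂ (i / 2 + 1)).prod (degreeLT ℂ ((i - 1) / 2))).map (Φ A B)

theorem mem_fl (i : ℕ) (b : RR A B) : b ∈ fl A B i ↔ dg A B b ≤ i := by
  obtain ⟨p, q, rfl⟩ := Φ_surj A B b
  rw [dg_le]
  unfold fl
  constructor
  · rintro ⟨⟨p', q'⟩, h, e⟩
    have := Φ_inj A B e
    rw [Prod.mk.injEq] at this
    rw [← this.1, ← this.2]
    exact h
  · intro h
    exact ⟨(p, q), h, rfl⟩

theorem finrank_fl (i : ℕ) : finrank ℂ (fl A B i) = i / 2 + 1 + (i - 1) / 2 := by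
  unfold fl
  rw [LinearEquiv.finrank_eq (Submodule.equivMapOfInjective (Φ A B) (Φ_inj A B) _).symm]
  have e : ((degreeLT ℂ (i / 2 + 1)).prod (degreeLT ℂ ((i - 1) / 2))) ≃ₗ[ℂ]
      (degreeLT ℂ (i / 2 + 1)) × (degreeLT ℂ ((i - 1) / 2)) :=
    { toFun := fun x => (⟨x.1.1, x.2.1⟩, ⟨x.1.2, x.2.2⟩)
      invFun := fun x => ⟨(x.1.1, x.2.1), x.1.2, x.2.2⟩
      map_add' := fun _ _ => rfl
      map_smul' := fun _ _ => rfl
      left_inv := fun _ => rfl
      right_inv := fun _ => rfl }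
  have f1 : ∀ n, Module.Finite ℂ (degreeLT ℂ n) := fun n =>
    Module.Finite.equiv (degreeLTEquiv ℂ n).symm
  rw [e.finrank_eq]
  have := f1 (i / 2 + 1)
  have := f1 ((i - 1) / 2)
  rw [Module.finrank_prod, (degreeLTEquiv ℂ _).finrank_eq, (degreeLTEquiv ℂ _).finrank_eq]
  simp

theorem fl_span (i : ℕ) : fl A B i = Submodule.span ℂ
    ({b | ∃ a : ℕ, 2 * a ≤ i ∧ b = (algebraMap (Polynomial ℂ) (RR A B) Polynomial.X) ^ a} ∪
     {b | ∃ a : ℕ, 2 * a + 3 ≤ i ∧
      b = (algebraMap (Polynomial ℂ) (RR A B) Polynomial.X) ^ a * yy A B}) := by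
  classical
  unfold fl Φ
  rw [LinearMap.map_coprod_prod, Submodule.map_comp, degreeLT_eq_span_X_pow,
    degreeLT_eq_span_X_pow, Submodule.map_span, Submodule.map_span, Submodule.map_span,
    Submodule.span_union]
  congr 1
  · congr 1
    ext b
    simp only [Finset.coe_image, Finset.coe_range, Set.mem_image, Set.mem_Iio, Set.mem_ofPred_eq]
    constructor
    · rintro ⟨_, ⟨a, ha, rfl⟩, rfl⟩
      refine ⟨a, by omega, ?_⟩
      simp
    · rintro ⟨a, ha, rfl⟩
      refine ⟨_, ⟨a, by omega, rfl⟩, ?_⟩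
      simp
  · congr 1
    ext b
    simp only [Finset.coe_image, Finset.coe_range, Set.mem_image, Set.mem_Iio, Set.mem_ofPred_eq]
    constructor
    · rintro ⟨_, ⟨_, ⟨a, ha, rfl⟩, rfl⟩, rfl⟩
      refine ⟨a, by omega, ?_⟩
      simp
    · rintro ⟨a, ha, rfl⟩
      refine ⟨_, ⟨_, ⟨a, by omega, rfl⟩, rfl⟩, ?_⟩
      simp

theorem dg_quot (b : RR A B) (hb : b ≠ 0) :
    finrank ℂ (RR A B ⧸ Ideal.span ({b} : Set (RR A B))) = dg A B b :=
  finrank_quotient_span_eq_natDegree_norm (CoordinateRing.basis (crv A B)) hb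

theorem fin_quot (b : RR A B) (hb : b ≠ 0) :
    Module.Finite ℂ (RR A B ⧸ Ideal.span ({b} : Set (RR A B))) := by
  by_cases h : dg A B b = 0
  · have h1 : IsUnit b := by
      obtain ⟨p, q, rfl⟩ := Φ_surj A B b
      obtain ⟨h2, h3⟩ := (dg_le A B p q 0).1 h.le
      have hq : q = 0 := by
        rw [mem_degreeLT] at h3
        simpa using h3
      have hp : p.natDegree = 0 := by
        rw [mem_degreeLT] at h2
        by_cases hp : p = 0
        · rw [hp, natDegree_zero]
        · rw [Polynomial.degree_eq_natDegree hp, Nat.cast_lt] at h2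
          omega
      have hp2 := Polynomial.eq_C_of_natDegree_eq_zero hp
      rw [Φ_apply, hq, map_zero, zero_mul, add_zero] at hb ⊢
      have hp0 : p.coeff 0 ≠ 0 := by
        intro h0
        apply hb
        rw [hp2, h0, C_0, map_zero]
      rw [hp2]
      exact ((Polynomial.isUnit_C.2 (isUnit_iff_ne_zero.2 hp0)).map _)
    rw [Ideal.span_singleton_eq_top.2 h1]
    infer_instance
  · exact Module.finite_of_finrank_pos (by rw [dg_quot A B b hb]; exact Nat.pos_of_ne_zero h)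

/-- the structure of a ring of genus one -/
noncomputable def gen : Gen1 (RR A B) where
  fil := fl A B
  deg := dg A B
  mem_fil := mem_fl A B
  deg_mul := by
    intro a b ha hb
    unfold dg
    rw [map_mul, Polynomial.natDegree_mul]
    · exact Algebra.norm_ne_zero_iff.2 ha
    · exact Algebra.norm_ne_zero_iff.2 hb
  finrank_fil := by
    intro i hi
    rw [finrank_fl]
    omega
  finrank_fil_zero := by
    rw [finrank_fl]
  fin_quot := fin_quot A B
  finrank_quot := dg_quot A B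

/-- lemma job ELL of project LM -/
theorem ell : S_Ell := fun A B _ => ⟨gen A B, fun i => fl_span A B i⟩

end Pool.Agent.Q229.LM.Ell
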