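import Pool.Agent.Q55.LM.Stm

/-! Project LM (helper55), lemma job FAMJ. -/

namespace Pool.Agent.Q229.LM.FamJ

open Module MvPolynomial Pool.Agent.Q55.LM

/-- the weights -/
def w : Fin 3 → ℕ := ![3, 2, 1]

theorem hX0 : (X 0 : MvPolynomial (Fin 3) ℂ).IsWeightedHomogeneous w 3 :=
  isWeightedHomogeneous_X ℂ w 0

theorem hX1 : (X 1 : MvPolynomial (Fin 3) ℂ).IsWeightedHomogeneous w 2 :=
  isWeightedHomogeneous_X ℂ w 1

theorem hX2 : (X 2 : MvPolynomial (Fin 3) ℂ).IsWeightedHomogeneous w 1 :=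
  isWeightedHomogeneous_X ℂ w 2

theorem hC (c : ℂ) : (C c : MvPolynomial (Fin 3) ℂ).IsWeightedHomogeneous w 0 :=
  isWeightedHomogeneous_C w c

theorem fJ_homog (l : ℂ) : (fJ l).IsWeightedHomogeneous w 6 := by
  unfold fJ
  refine IsWeightedHomogeneous.add (IsWeightedHomogeneous.add (IsWeightedHomogeneous.add ?_ ?_) ?_)
    ?_
  · exact hX0.pow 2
  · exact hX1.pow 3
  · exact hX2.pow 6
  · exact (((hC l).mul hX0).mul hX1).mul hX2

theorem fJ_ne (l : ℂ) : fJ l ≠ 0 := by
  intro h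
  have h1 := congrArg (MvPolynomial.eval ![1, 0, 0]) h
  unfold fJ at h1
  simp at h1

/-- `x` -/
noncomputable abbrev xx (A B : ℂ) : RR A B := algebraMap (Polynomial ℂ) (RR A B) Polynomial.X

/-- the generators -/
noncomputable def ξ (A B m l : ℂ) : Fin 3 → RR A B :=
  ![yy A B - (l / 2) • (m • 1 - xx A B), m • 1 - xx A B, 1]

theorem sq_yy (A B : ℂ) : yy A B ^ 2 = xx A B ^ 3 + A • xx A B + B • 1 := by
  rw [yy_sq]
  unfold ff
  rw [map_add, map_add, map_mul, map_pow]
  have e : ∀ c : ℂ, algebraMap (Polynomial ℂ) (RR A B) (Polynomial.C c) = c • 1 := by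
    intro c
    rw [← Algebra.algebraMap_eq_smul_one]
    rfl
  rw [e, e, smul_one_mul]

theorem root (m l : ℂ) (hm : m = l ^ 2 / 12) (A B : ℂ) (hA : A = -3 * m ^ 2)
    (hB : B = 2 * m ^ 3 - 1) : aeval (ξ A B m l) (fJ l) = 0 := by
  unfold fJ ξ
  simp only [map_add, map_mul, map_pow, aeval_X, aeval_C, Matrix.cons_val_zero,
    Matrix.cons_val_one, Matrix.cons_val_two, Matrix.head_cons, Matrix.tail_cons]
  have h := sq_yy A B
  simp only [Algebra.smul_def, mul_one] at *
  generalize xx A B = x at *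
  generalize yy A B = y at *
  have e1 : algebraMap ℂ (RR A B) l = 2 * algebraMap ℂ (RR A B) (l / 2) := by
    rw [← map_ofNat (algebraMap ℂ (RR A B)) 2, ← map_mul]
    congr 1
    ring
  have e2 : algebraMap ℂ (RR A B) (l / 2) ^ 2 = 3 * algebraMap ℂ (RR A B) m := by
    rw [← map_ofNat (algebraMap ℂ (RR A B)) 3, ← map_mul, ← map_pow]
    congr 1
    rw [hm]
    ring
  have e3 : algebraMap ℂ (RR A B) A = -3 * algebraMap ℂ (RR A B) m ^ 2 := by
    rw [← map_ofNat (algebraMap ℂ (RR A B)) 3, ← map_neg, ← map_pow, ← map_mul]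
    congr 1
  have e4 : algebraMap ℂ (RR A B) B = 2 * algebraMap ℂ (RR A B) m ^ 3 - 1 := by
    rw [← map_ofNat (algebraMap ℂ (RR A B)) 2, ← map_pow, ← map_mul, ← map_one
      (algebraMap ℂ (RR A B)), ← map_sub]
    congr 1
  rw [e3, e4] at h
  rw [e1]
  generalize algebraMap ℂ (RR A B) (l / 2) = c at *
  generalize algebraMap ℂ (RR A B) m = t at *
  linear_combination h - (t - x) ^ 2 * e2

theorem famJ : S_FamJ := by
  intro hE hI l hl
  set m : ℂ := l ^ 2 / 12 with hm
  set A : ℂ := -3 * m ^ 2 with hA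
  set B : ℂ := 2 * m ^ 3 - 1 with hB
  have hD : 4 * A ^ 3 + 27 * B ^ 2 ≠ 0 := by
    have e : 4 * A ^ 3 + 27 * B ^ 2 = (432 - l ^ 6) / 16 := by
      rw [hA, hB, hm]
      ring
    rw [e]
    exact div_ne_zero (sub_ne_zero.2 (Ne.symm hl)) (by norm_num)
  obtain ⟨g, hg⟩ := hE A B hD
  refine ⟨A, B, hD, g, ?_⟩
  have hx : xx A B ∈ g.fil 2 := by
    rw [hg]
    exact Submodule.subset_span (Or.inl ⟨1, by norm_num, by rw [pow_one]⟩)
  have hy : yy A B ∈ g.fil 3 := by
    rw [hg]
    exact Submodule.subset_span (Or.inr ⟨0, by norm_num, by rw [pow_zero, one_mul]⟩)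
  have h1 : m • 1 - xx A B ∈ g.fil 2 :=
    Submodule.sub_mem _ (Submodule.smul_mem _ _ (g.one_mem 2)) hx
  have h0 : yy A B - (l / 2) • (m • 1 - xx A B) ∈ g.fil 3 :=
    Submodule.sub_mem _ hy (Submodule.smul_mem _ _ (g.fil_mono (by norm_num) h1))
  refine hI (RR A B) g 1 6 w (ξ A B m l) (fJ l) (Or.inl ⟨rfl, rfl, rfl⟩) (fJ_ne l) (fJ_homog l)
    ?_ (root m l hm A B hA hB) ?_
  · intro i
    fin_cases i
    · exact h0
    · exact h1
    · exact g.one_mem _
  · intro j b hb
    rw [Nat.one_mul, hg] at hb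
    have hle : Submodule.span ℂ
        ({b | ∃ a : ℕ, 2 * a ≤ j ∧ b = (algebraMap (Polynomial ℂ) (RR A B) Polynomial.X) ^ a} ∪
         {b | ∃ a : ℕ, 2 * a + 3 ≤ j ∧
          b = (algebraMap (Polynomial ℂ) (RR A B) Polynomial.X) ^ a * yy A B}) ≤
        (weightedHomogeneousSubmodule ℂ w j).map (aeval (ξ A B m l)).toLinearMap := by
      have e1 : aeval (ξ A B m l) (C m * X 2 ^ 2 - X 1) = xx A B := by
        unfold ξ
        simp only [map_sub, map_mul, map_pow, aeval_X, aeval_C, Matrix.cons_val_zero,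
          Matrix.cons_val_one, Matrix.cons_val_two, Matrix.head_cons, Matrix.tail_cons, one_pow,
          mul_one, Algebra.smul_def]
        ring
      have e2 : aeval (ξ A B m l) (X 0 + C (l / 2) * X 1 * X 2) = yy A B := by
        unfold ξ
        simp only [map_add, map_mul, aeval_X, aeval_C, Matrix.cons_val_zero,
          Matrix.cons_val_one, Matrix.cons_val_two, Matrix.head_cons, Matrix.tail_cons,
          mul_one, Algebra.smul_def]
        ring
      have e3 : aeval (ξ A B m l) (X 2 : MvPolynomial (Fin 3) ℂ) = 1 := by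
        rw [aeval_X]
        rfl
      have p1 : (C m * X 2 ^ 2 - X 1 : MvPolynomial (Fin 3) ℂ).IsWeightedHomogeneous w 2 := by
        have h := ((hC m).mul (hX2.pow 2)).add ((hC (-1)).mul hX1)
        have e : (C m * X 2 ^ 2 - X 1 : MvPolynomial (Fin 3) ℂ)
            = C m * X 2 ^ 2 + C (-1) * X 1 := by
          rw [C_neg, C_1]
          ring
        rw [e]
        exact h
      have p2 : (X 0 + C (l / 2) * X 1 * X 2 : MvPolynomial (Fin 3) ℂ).IsWeightedHomogeneous w 3 :=
        hX0.add (((hC (l / 2)).mul hX1).mul hX2)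
      rw [Submodule.span_le]
      rintro b (⟨a, ha, rfl⟩ | ⟨a, ha, rfl⟩)
      · refine ⟨(C m * X 2 ^ 2 - X 1) ^ a * X 2 ^ (j - 2 * a), ?_, ?_⟩
        · have h := (p1.pow a).mul (hX2.pow (j - 2 * a))
          have e : a • 2 + (j - 2 * a) • 1 = j := by
            simp only [smul_eq_mul]
            omega
          rw [e] at h
          exact h
        · change aeval (ξ A B m l) _ = _
          rw [map_mul, map_pow, map_pow, e1, e3, one_pow, mul_one]
      · refine ⟨(C m * X 2 ^ 2 - X 1) ^ a * (X 0 + C (l / 2) * X 1 * X 2)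
          * X 2 ^ (j - (2 * a + 3)), ?_, ?_⟩
        · have h := ((p1.pow a).mul p2).mul (hX2.pow (j - (2 * a + 3)))
          have e : a • 2 + 3 + (j - (2 * a + 3)) • 1 = j := by
            simp only [smul_eq_mul]
            omega
          rw [e] at h
          exact h
        · change aeval (ξ A B m l) _ = _
          rw [map_mul, map_mul, map_pow, map_pow, e1, e2, e3, one_pow, mul_one]
    obtain ⟨p, hp, hpb⟩ := hle hb
    exact ⟨p, hp, hpb⟩

end Pool.Agent.Q229.LM.FamJ
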