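import Pool.Agent.Q55.LM.Stm

/-! Project LM (helper55), lemma job LOW. -/

namespace Pool.Agent.Q229.LM.Low

open Module Pool.Agent.Q55.LM

variable {B : Type} [CommRing B] [Algebra ℂ B] (g : Gen1 B) (n : ℕ)

theorem cf_mul (K J : ℕ) (a b : AR g n) : cf g n K J (a * b) =
    ∑ p ∈ Finset.HasAntidiagonal.antidiagonal K, ∑ q ∈ Finset.HasAntidiagonal.antidiagonal J,
      cf g n p.1 q.1 a * cf g n p.2 q.2 b := by
  change PowerSeries.coeff J ((PowerSeries.coeff K (a * b) : SR g n) : PowerSeries B) = _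
  rw [PowerSeries.coeff_mul, AddSubmonoidClass.coe_finsetSum, map_sum]
  refine Finset.sum_congr rfl fun p _ => ?_
  rw [MulMemClass.coe_mul, PowerSeries.coeff_mul]
  rfl

/-- the ideal of the elements of order at least `N` -/
noncomputable def IN (N : ℕ) : Ideal (AR g n) where
  carrier := {a | ∀ k j, k + j < N → cf g n k j a = 0}
  zero_mem' := fun _ _ _ => map_zero _
  add_mem' := by
    intro a b ha hb k j h
    rw [map_add, ha k j h, hb k j h, add_zero]
  smul_mem' := by
    intro c a ha k j h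
    rw [smul_eq_mul, cf_mul]
    refine Finset.sum_eq_zero fun p hp => Finset.sum_eq_zero fun q hq => ?_
    rw [Finset.HasAntidiagonal.mem_antidiagonal] at hp hq
    rw [ha p.2 q.2 (by omega), mul_zero]

theorem mem_IN (N : ℕ) (a : AR g n) : a ∈ IN g n N ↔ ∀ k j, k + j < N → cf g n k j a = 0 :=
  Iff.rfl

theorem IN_zero : IN g n 0 = ⊤ := by
  rw [eq_top_iff]
  intro a _
  rw [mem_IN]
  intro k j h
  omega

theorem IN_mul (N M : ℕ) : IN g n N * IN g n M ≤ IN g n (N + M) := by
  rw [Ideal.mul_le]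
  intro a ha b hb K J h
  rw [cf_mul]
  refine Finset.sum_eq_zero fun p hp => Finset.sum_eq_zero fun q hq => ?_
  rw [Finset.HasAntidiagonal.mem_antidiagonal] at hp hq
  by_cases h1 : p.1 + q.1 < N
  · rw [ha _ _ h1, zero_mul]
  · rw [hb p.2 q.2 (by omega), mul_zero]

theorem IN_pow (N m : ℕ) : (IN g n N) ^ m ≤ IN g n (N * m) := by
  induction m with
  | zero => rw [Nat.mul_zero, IN_zero]; exact le_top
  | succ m ih =>
    rw [pow_succ, Nat.mul_succ]
    exact (Ideal.mul_mono_left ih).trans (IN_mul g n _ _)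

/-- the coefficients of order less than `N` -/
noncomputable def ψ (N : ℕ) : AR g n →ₗ[ℂ] ((x : Σ k : Fin N, Fin (N - k)) → g.fil (n * x.2)) :=
  LinearMap.pi fun x => (cf g n x.1 x.2).codRestrict (g.fil (n * x.2)) fun a =>
    (PowerSeries.coeff (x.1 : ℕ) a : SR g n).2 x.2

theorem ψ_surj (N : ℕ) : Function.Surjective (ψ g n N) := by
  intro b
  refine ⟨PowerSeries.mk fun k => ⟨PowerSeries.mk fun j =>
    if h : k < N ∧ j < N - k then (b ⟨⟨k, h.1⟩, ⟨j, h.2⟩⟩ : B) else 0, fun j => ?_⟩, ?_⟩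
  · rw [PowerSeries.coeff_mk]
    split_ifs with h
    · exact (b ⟨⟨k, h.1⟩, ⟨j, h.2⟩⟩).2
    · exact Submodule.zero_mem _
  · funext x
    obtain ⟨⟨k, hk⟩, ⟨j, hj⟩⟩ := x
    apply Subtype.ext
    unfold ψ
    rw [LinearMap.pi_apply, LinearMap.codRestrict_apply]
    unfold cf
    rw [LinearMap.coe_mk, AddHom.coe_mk]
    simp only [PowerSeries.coeff_mk]
    rw [dif_pos ⟨hk, hj⟩]

theorem ψ_ker (N : ℕ) : LinearMap.ker (ψ g n N) = (IN g n N).restrictScalars ℂ := by
  ext a
  rw [LinearMap.mem_ker, Submodule.restrictScalars_mem, mem_IN]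
  constructor
  · intro h k j hkj
    have h1 := congrFun h ⟨⟨k, by omega⟩, ⟨j, by simp; omega⟩⟩
    exact congrArg Subtype.val h1
  · intro h
    funext x
    apply Subtype.ext
    have := x.2.2
    exact h x.1 x.2 (by omega)

/-- the quotient -/
noncomputable def qe (N : ℕ) : (AR g n ⧸ IN g n N) ≃ₗ[ℂ]
    ((x : Σ k : Fin N, Fin (N - k)) → g.fil (n * x.2)) :=
  (Submodule.Quotient.restrictScalarsEquiv ℂ (IN g n N)).symm.trans
    ((Submodule.quotEquivOfEq _ _ (ψ_ker g n N).symm).trans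
      ((ψ g n N).quotKerEquivOfSurjective (ψ_surj g n N)))

/-- the dimension of `fil (n j)` -/
def dd (j : ℕ) : ℕ := if j = 0 then 1 else n * j

theorem finrank_dd (hn : 1 ≤ n) (j : ℕ) : finrank ℂ (g.fil (n * j)) = dd n j := by
  unfold dd
  split_ifs with h
  · rw [h, Nat.mul_zero, g.finrank_fil_zero]
  · exact g.finrank_fil _ (Nat.mul_pos hn (Nat.pos_of_ne_zero h))

theorem sum_dd (N : ℕ) : 2 * ∑ j ∈ Finset.range (N + 1), dd n j = 2 + n * (N * (N + 1)) := by
  induction N with
  | zero => simp [dd]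
  | succ N ih =>
    rw [Finset.sum_range_succ, Nat.mul_add, ih]
    unfold dd
    rw [if_neg (by omega)]
    ring

theorem sum_all (N : ℕ) :
    6 * ∑ k ∈ Finset.range N, ∑ j ∈ Finset.range (N - k), dd n j + n * N = n * N ^ 3 + 6 * N := by
  induction N with
  | zero => simp
  | succ N ih =>
    rw [Finset.sum_range_succ']
    have e : ∑ k ∈ Finset.range N, ∑ j ∈ Finset.range (N + 1 - (k + 1)), dd n j
        = ∑ k ∈ Finset.range N, ∑ j ∈ Finset.range (N - k), dd n j :=
      Finset.sum_congr rfl fun k _ => by rw [Nat.add_sub_add_right]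
    rw [e, Nat.sub_zero]
    have h := sum_dd n N
    nlinarith

theorem fin_fil (hn : 1 ≤ n) (j : ℕ) : Module.Finite ℂ (g.fil (n * j)) := by
  apply Module.finite_of_finrank_pos
  rw [finrank_dd g n hn]
  unfold dd
  split_ifs with h
  · norm_num
  · exact Nat.mul_pos hn (Nat.pos_of_ne_zero h)

theorem finrank_quot (hn : 1 ≤ n) (N : ℕ) : finrank ℂ (AR g n ⧸ IN g n N) =
    ∑ k ∈ Finset.range N, ∑ j ∈ Finset.range (N - k), dd n j := by
  have := fin_fil g n hn
  rw [(qe g n N).finrank_eq, Module.finrank_pi_fintype, Fintype.sum_sigma, Finset.sum_range]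
  refine Finset.sum_congr rfl fun k _ => ?_
  rw [Finset.sum_range]
  exact Finset.sum_congr rfl fun j _ => finrank_dd g n hn j

/-- lemma job LOW of project LM -/
theorem low : S_Low := by
  intro B _ _ _ g n hn
  refine ⟨IN g n, ?_, ?_, IN_pow g n, ?_, ?_⟩
  · intro N a ha
    refine ⟨N, ?_⟩
    have h1 : a ∈ IN g n 1 := by
      intro k j h
      have hk : k = 0 := by omega
      have hj : j = 0 := by omega
      rw [hk, hj]
      exact ha
    have h2 := IN_pow g n 1 N (Ideal.pow_mem_pow h1 N)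
    rwa [Nat.one_mul] at h2
  · intro N hN h
    have h1 : (1 : AR g n) ∈ IN g n N := by rw [h]; exact Submodule.mem_top
    have h2 := h1 0 0 (by omega)
    have h3 : cf g n 0 0 (1 : AR g n) = 1 := by
      change PowerSeries.coeff 0 ((PowerSeries.coeff 0 (1 : AR g n) : SR g n) :
        PowerSeries B) = 1
      rw [PowerSeries.coeff_zero_one, OneMemClass.coe_one, PowerSeries.coeff_zero_one]
    rw [h3] at h2
    exact one_ne_zero h2
  · intro N
    have := fin_fil g n hn
    exact Module.Finite.equiv (qe g n N).symm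
  · intro N
    rw [finrank_quot g n hn]
    exact sum_all n N

end Pool.Agent.Q229.LM.Low
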